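import Pool.Agent.E8helper50.SR.S4

/-!
# Project SR, piece QUN: the unit of the even part is a unit
-/

set_option autoImplicit false

universe u

namespace Pool.Agent.E8helper47.SR

open Pool.Agent.E8helper50.SR

theorem zmod2 (j : ZMod 2) : j = 0 ∨ j = 1 := by
  fin_cases j
  · exact Or.inl rfl
  · exact Or.inr rfl

theorem odd_left {F : Type u} [Field F] (B : SAlg F) (hB : GSP B) (u : B) (hu : u ∈ B.gr 0)
    (h : ∀ x ∈ B.gr 0, u * x = x ∧ x * u = x) (x : B) (hx : x ∈ B.gr 1) : u * x = x := by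
  have hux : u * x ∈ B.gr 1 := by
    have := B.mul_mem 0 1 u x hu hx
    rwa [zero_add] at this
  have hz : x - u * x ∈ B.gr 1 := Submodule.sub_mem _ hx hux
  have huz : u * (x - u * x) = 0 := by
    rw [mul_sub, ← mul_assoc, (h u hu).1, sub_self]
  by_contra hne
  have hz0 : x - u * x ≠ 0 := fun h0 => hne (sub_eq_zero.mp h0).symm
  obtain ⟨j, w, hw, hzw⟩ := hB 1 _ hz hz0
  apply hzw
  rcases zmod2 j with rfl | rfl
  · have h1 : w * (x - u * x) = 0 := by
      rw [← (h w hw).2, mul_assoc, huz, mul_zero]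
    rw [mul_assoc, h1, mul_zero]
  · have hm : (x - u * x) * w ∈ B.gr 0 := B.mul_mem 1 1 _ _ hz hw
    have h1 : (x - u * x) * w = 0 := by
      rw [← (h _ hm).1, ← mul_assoc, huz, zero_mul]
    rw [h1, zero_mul]

theorem odd_right {F : Type u} [Field F] (B : SAlg F) (hB : GSP B) (u : B) (hu : u ∈ B.gr 0)
    (h : ∀ x ∈ B.gr 0, u * x = x ∧ x * u = x) (x : B) (hx : x ∈ B.gr 1) : x * u = x := by
  have hux : x * u ∈ B.gr 1 := by
    have := B.mul_mem 1 0 x u hx hu
    rwa [add_zero] at this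
  have hz : x - x * u ∈ B.gr 1 := Submodule.sub_mem _ hx hux
  have huz : (x - x * u) * u = 0 := by
    rw [sub_mul, mul_assoc, (h u hu).1, sub_self]
  by_contra hne
  have hz0 : x - x * u ≠ 0 := fun h0 => hne (sub_eq_zero.mp h0).symm
  obtain ⟨j, w, hw, hzw⟩ := hB 1 _ hz hz0
  apply hzw
  rcases zmod2 j with rfl | rfl
  · have h1 : (x - x * u) * w = 0 := by
      rw [← (h w hw).1, ← mul_assoc, huz, zero_mul]
    rw [h1, zero_mul]
  · have hm : w * (x - x * u) ∈ B.gr 0 := B.mul_mem 1 1 _ _ hw hz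
    have h1 : w * (x - x * u) = 0 := by
      rw [← (h _ hm).2, mul_assoc, huz, mul_zero]
    rw [mul_assoc, h1, mul_zero]

theorem t_QUN : S_QUN.{u} := by
  intro F _ B hB u hu h x
  have hx : x ∈ B.gr 0 ⊔ B.gr 1 := by
    rw [B.compl.sup_eq_top]
    trivial
  obtain ⟨x0, h0, x1, h1, rfl⟩ := Submodule.mem_sup.mp hx
  exact ⟨by rw [mul_add, (h x0 h0).1, odd_left B hB u hu h x1 h1],
    by rw [add_mul, (h x0 h0).2, odd_right B hB u hu h x1 h1]⟩

end Pool.Agent.E8helper47.SR
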